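import Mathlib
import Pool.Agent.H38.RB.Targets
import Pool.Agent.H38.PS.Targets3
import Pool.Agent.H82.RD.Targets
import Pool.Agent.H23.AF.Targets

/-!
# abc for almost all triples with few prime factors, any height (MP_7ecdd4_nt, n = 3): targets

Every `T_XXX : Prop` is to be proved as a theorem `pf_XXX : T_XXX` in its own file, other targets
being hypotheses.
-/

set_option autoImplicit false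

open Pool.Agent.H38.RB Pool.Agent.H38.PS Pool.Agent.H82.RD
open Pool.Agent.H23.AF (En)

namespace Pool.Agent.H38.AB

/-! ## Range 3: dependent sets of primes -/

/-- the set `R` of primes is `S`-dependent modulo `q ^ e` -/
def Dpt (q e Bd : ℕ) (S R : Finset ℕ) : Prop :=
  ∃ α γ : ℕ → ℕ, (∀ p ∈ S ∪ R, α p ≤ Bd ∧ γ p ≤ Bd) ∧ (∀ p ∈ R, α p ≠ γ p) ∧
    (∏ p ∈ S ∪ R, p ^ γ p) ^ 2 ≡ (∏ p ∈ S ∪ R, p ^ α p) ^ 2 [MOD q ^ e]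

/-- exponent vectors with entries at most `T` and product in a given class -/
def Kaq (q T c : ℕ) (Q : Finset ℕ) : Finset (Q → ℕ) :=
  (Fintype.piFinset fun _ : Q => Finset.range (T + 1)).filter
    fun k => (∏ p : Q, (p : ℕ) ^ k p) % qh q = c

/-- DJH: the data of the machine for disjoint dependent sets. -/
def T_DJH : Prop := ∀ (q : ℕ) [Fact q.Prime] (e T c Bd m : ℕ) (S Q : Finset ℕ)
  (R : Fin m → Finset ℕ), 1 ≤ T → 1 ≤ Bd → (∀ l ∈ S, l.Prime ∧ l ≠ q) →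
  (∀ i, (R i).Nonempty ∧ Disjoint S (R i) ∧ (∀ p ∈ R i, p.Prime ∧ p ≠ q) ∧
    Dpt q e Bd S (R i)) → (∀ i j, i ≠ j → Disjoint (R i) (R j)) →
  Q = Finset.univ.biUnion R →
  ∃ (r κ : ℕ) (W : (Q → ℕ) → Fin r → ℤ_[q]) (den : (Q → ℕ) → ℕ) (num : (Q → ℕ) → Fin r → ℤ)
    (ζ : Fin r → ℤ_[q]), r + m = S.card + Q.card ∧ q ^ κ ≤ q * Bd ∧
    MHyp q r (Kaq q T c Q) W (fun k => ∏ p : Q, (p : ℕ) ^ k p) den num ζ κ (e - 3)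
      (1 + qh q) ((m + 2) * T * Bd ^ (m + 1)) ((∏ p ∈ Q, p) ^ T)

/-- DJN: choice of the parameters. -/
def T_DJN : Prop := ∀ β : ℝ, 0 ≤ β → β < 1 / 2 → ∃ X₀ : ℕ, 2 ≤ X₀ ∧
  ∀ X q r e Ω s n m : ℕ, X₀ ≤ X → 2 ≤ q → q ≤ X → m = Nat.log 2 X + 1 →
  (Ω : ℝ) ≤ Real.log X ^ β → s ≤ Ω → n ≤ m * Ω → r + m = s + n →
  Real.exp (Real.log X ^ (1 / 2 : ℝ) / 4) ≤ e →
  ∃ T : ℕ, 1 ≤ T ∧ ∀ κ : ℕ, q ^ κ ≤ q * X ^ 30 →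
  ∃ A B : ℕ, 1 ≤ A ∧ 2 ≤ B ∧ 2 * (A * B + κ) ≤ e - 3 ∧
    X ^ (m * T) < q ^ (e - 3 - κ) ∧
    (∀ u : ℕ, 1 ≤ u → u ≤ r → NC q A B ((m + 2) * T * (X ^ 30) ^ (m + 1)) (X ^ (m * T)) u) ∧
    (r + 1) * B * ((r + 1) * A) ^ r * (4 * X) < (T + 1) ^ n

/-- DJ: there are not too many pairwise disjoint dependent sets. -/
def T_DJ : Prop := ∀ β : ℝ, 0 ≤ β → β < 1 / 2 → ∃ X₀ : ℕ, 2 ≤ X₀ ∧
  ∀ (X q e Ω m : ℕ) (S : Finset ℕ) (R : Fin m → Finset ℕ), X₀ ≤ X → q.Prime → q ≤ X →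
  m = Nat.log 2 X + 1 → (Ω : ℝ) ≤ Real.log X ^ β →
  Real.exp (Real.log X ^ (1 / 2 : ℝ) / 4) ≤ e → S.card ≤ Ω → (∀ l ∈ S, l.Prime ∧ l ≠ q) →
  (∀ i, (R i).Nonempty ∧ (R i).card ≤ Ω ∧ Disjoint S (R i) ∧ (∀ p ∈ R i, p.Prime ∧ p ≠ q) ∧
    pd (R i) ≤ X ∧ Dpt q e (X ^ 30) S (R i)) → (∀ i j, i ≠ j → Disjoint (R i) (R j)) → False

/-- CNT: the number of dependent sets. -/
def T_CNT : Prop := ∀ β : ℝ, 0 ≤ β → β < 1 / 2 → ∃ X₀ : ℕ, 2 ≤ X₀ ∧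
  ∀ (X q e Ω : ℕ) (S : Finset ℕ) (F : Finset (Finset ℕ)), X₀ ≤ X → q.Prime → q ≤ X →
  (Ω : ℝ) ≤ Real.log X ^ β → Real.exp (Real.log X ^ (1 / 2 : ℝ) / 4) ≤ e →
  (∀ l ∈ S, l.Prime ∧ l ≠ q) →
  (∀ R ∈ F, S.card + R.card ≤ Ω ∧ Disjoint S R ∧ (∀ p ∈ R, p.Prime ∧ p ≠ q) ∧
    pd R ≤ X ∧ Dpt q e (X ^ 30) S R) → F.card ≤ ((Nat.log 2 X + 1) * Ω + 1) ^ Ω

/-- TRM: the triples of very large height. -/
def T_TRM : Prop := ∀ β ε : ℝ, 0 ≤ β → β < 1 / 2 → 0 < ε → ∃ C : ℝ, 0 < C ∧ ∀ X : ℝ, 1 ≤ X →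
  {x | Adm x ∧ (pd (pr x).primeFactors : ℝ) ≤ X ∧
    ((pr x).primeFactors.card : ℝ) ≤ Real.log X ^ β ∧
    Real.exp (Real.log X ^ (1 / 2 : ℝ)) ≤ Real.log (ht x)}.Finite ∧
  ({x | Adm x ∧ (pd (pr x).primeFactors : ℝ) ≤ X ∧
    ((pr x).primeFactors.card : ℝ) ≤ Real.log X ^ β ∧
    Real.exp (Real.log X ^ (1 / 2 : ℝ)) ≤ Real.log (ht x)}.ncard : ℝ) ≤ C * X ^ (1 / 2 + ε)

/-! ## Range 2: energy -/

/-- the loss -/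
noncomputable def Lo (K : ℕ) (X : ℝ) (Ω V : ℕ) : ℝ :=
  (((V : ℝ) + 2) * (4 * Real.log X + 4)) ^ (K * (Ω + 1))

/-- NUM3: the loss is small. -/
def T_NUM3 : Prop := ∀ (K : ℕ) (β ε : ℝ), 0 ≤ β → β < 1 / 2 → 0 < ε → ∃ C : ℝ, 1 ≤ C ∧
  ∀ (X : ℝ) (Ω V : ℕ), 2 ≤ X → (Ω : ℝ) ≤ Real.log X ^ β →
  (V : ℝ) ≤ Real.exp (2 * Real.log X ^ (1 / 2 : ℝ)) → Lo K X Ω V ≤ C * X ^ ε

/-- the numbers with radical at most `X`, at most `Ω` prime factors and exponents at most `V` -/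
noncomputable def Nf (X : ℝ) (Ω V : ℕ) : Finset ℕ := by
  classical
  exact (Finset.Icc 1 (⌊X⌋₊ ^ V)).filter fun n => (pd n.primeFactors : ℝ) ≤ X ∧
    n.primeFactors.card ≤ Ω ∧ ∀ p, n.factorization p ≤ V

/-- NSU: sum of the reciprocals of the radicals. -/
def T_NSU : Prop := ∀ (X : ℝ) (Ω V : ℕ), 2 ≤ X →
  (∀ n : ℕ, n ≠ 0 → (pd n.primeFactors : ℝ) ≤ X → n.primeFactors.card ≤ Ω →
    (∀ p, n.factorization p ≤ V) → n ∈ Nf X Ω V) ∧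
  ∑ n ∈ Nf X Ω V, 1 / (pd n.primeFactors : ℝ) ≤ Lo 1 X Ω V

/-- the primes in a dyadic interval not dividing `g` -/
def Dy (g s : ℕ) : Finset ℕ :=
  (Finset.Ico (2 ^ s) (2 ^ (s + 1))).filter fun p => p.Prime ∧ p.Coprime g

/-- EG: energy of a product of dyadic boxes, from the moments. -/
def T_EG : Prop := ∀ (G : Type) [CommGroup G] [Fintype G] [DecidableEq G] (k S : ℕ)
  (B : Fin k → Finset ℕ) (f : Fin k → ℕ → G) (s n : Fin k → ℕ) (τ : ℝ), 1 ≤ τ →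
  (∀ j, 1 ≤ s j) → S = ∑ j, s j → (∀ j, S ≤ s j * n j ∧ 1 ≤ n j ∧ n j ≤ S) →
  (∀ j, En (B j) (f j) (n j) ≤ ((2 : ℝ) ^ s j) ^ n j * (n j).factorial * τ) →
  ((((Fintype.piFinset B) ×ˢ (Fintype.piFinset B)).filter
    (fun t => ∏ j, f j (t.1 j) = ∏ j, f j (t.2 j))).card : ℝ) ≤
    2 ^ S * ((S : ℝ) + 1) ^ k * τ

/-- TOR: torsion in the unit group. -/
def T_TOR : Prop := ∀ (g v : ℕ) [NeZero g], 1 ≤ v →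
  ((Finset.univ : Finset (ZMod g)ˣ).filter fun z => z ^ v = 1).card ≤
    (2 * v) ^ g.primeFactors.card

/-- MOM: moments modulo `g`. -/
def T_MOM : Prop := ∀ (g v s n : ℕ) [NeZero g] (f : ℕ → (ZMod g)ˣ), 1 ≤ v →
  2 ^ ((s + 1) * n) ≤ g →
  (∀ p : ℕ, p.Coprime g → ((f p : (ZMod g)ˣ) : ZMod g) = (p : ZMod g) ^ v) →
  En (Dy g s) f n ≤ ((2 : ℝ) ^ s) ^ n * n.factorial *
    (((Finset.univ : Finset (ZMod g)ˣ).filter fun z => z ^ v = 1).card : ℝ)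

/-- ENM: energy of a pattern modulo `g`. -/
def T_ENM : Prop := ∀ (k V S g : ℕ) [NeZero g] (v s : Fin k → ℕ),
  (∀ j, 1 ≤ v j ∧ v j ≤ V ∧ 1 ≤ s j) → S = ∑ j, s j → 2 ^ (3 * S + 1) ≤ g →
  ((((Fintype.piFinset fun j => Dy g (s j)) ×ˢ (Fintype.piFinset fun j => Dy g (s j))).filter
    (fun t => ∏ j, (t.1 j : ZMod g) ^ v j = ∏ j, (t.2 j : ZMod g) ^ v j)).card : ℝ) ≤
    2 ^ S * ((S : ℝ) + 1) ^ k * (2 * (V : ℝ) + 2) ^ g.primeFactors.card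

/-- GEM: weighted energy modulo `g`. -/
def T_GEM : Prop := ∀ (X : ℝ) (Ω V g : ℕ) [NeZero g] (u : (ZMod g)ˣ), 2 ≤ X → 2 * X ^ 3 ≤ g →
  g.primeFactors.card ≤ Ω →
  ∑ t ∈ ((Nf X Ω V) ×ˢ (Nf X Ω V)).filter
      (fun t => (t.1 : ZMod g) = u * (t.2 : ZMod g) ∧ IsUnit (t.1 : ZMod g)),
    1 / Real.sqrt ((pd t.1.primeFactors : ℝ) * pd t.2.primeFactors) ≤ Lo 8 X Ω V

/-- the sum of the cells of the logarithms -/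
noncomputable def cl (T : ℝ) {k : ℕ} (v p : Fin k → ℕ) : ℕ := ∑ j, ⌊T * v j * Real.log (p j)⌋₊

/-- ENA: archimedean energy of a pattern. -/
def T_ENA : Prop := ∀ (k S : ℕ) (T : ℝ) (v s : Fin k → ℕ),
  (∀ j, 1 ≤ v j ∧ 1 ≤ s j) → S = ∑ j, s j → 2 ^ (3 * S + 1) * ((S : ℝ) + 1) ≤ T →
  ((((Fintype.piFinset fun j => Dy 1 (s j)) ×ˢ (Fintype.piFinset fun j => Dy 1 (s j))).filter
    (fun t => cl T v t.1 = cl T v t.2)).card : ℝ) ≤ 2 ^ S * ((S : ℝ) + 1) ^ k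

/-- GEA: weighted archimedean energy. -/
def T_GEA : Prop := ∀ (X T : ℝ) (Ω V : ℕ), 2 ≤ X → X ^ 5 ≤ T →
  ∑ t ∈ ((Nf X Ω V) ×ˢ (Nf X Ω V)).filter
      (fun t => T * |Real.log t.1 - Real.log t.2| ≤ 1),
    1 / Real.sqrt ((pd t.1.primeFactors : ℝ) * pd t.2.primeFactors) ≤ Lo 8 X Ω V

/-! ## Range 2: classes of triples -/

/-- triples with small radical, few prime factors and small exponents -/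
def Fw (X : ℝ) (Ω V : ℕ) : Set (Fin 3 → ℤ) :=
  {x | Adm x ∧ (pd (pr x).primeFactors : ℝ) ≤ X ∧ (pr x).primeFactors.card ≤ Ω ∧
    ∀ p, (pr x).factorization p ≤ V}

/-- a good modulus -/
def PE (X Z : ℝ) (x : Fin 3 → ℤ) : Prop :=
  ∃ (a b c : Fin 3) (G : Finset ℕ), a ≠ b ∧ a ≠ c ∧ b ≠ c ∧ G ⊆ (x a).natAbs.primeFactors ∧
    X ^ 4 ≤ (tp G (x a).natAbs : ℝ) ∧
    (pd G : ℝ) * Real.sqrt ((pd (x b).natAbs.primeFactors : ℝ) *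
      pd (x c).natAbs.primeFactors) ≤ Z

/-- a small entry -/
def PA (X : ℝ) (x : Fin 3 → ℤ) : Prop := ∃ c : Fin 3, ((x c).natAbs : ℝ) * X ^ 6 ≤ ht x

/-- two primes with large exponents -/
def PJ (D : ℕ) (Z : ℝ) (x : Fin 3 → ℤ) : Prop :=
  ∃ (a b : Fin 3) (p r : ℕ), a ≠ b ∧ p.Prime ∧ r.Prime ∧ D < (x a).natAbs.factorization p ∧
    D < (x b).natAbs.factorization r ∧
    (pd (pr x).primeFactors : ℝ) * ((p : ℝ) * r) ^ (4 / (3 * ((D : ℝ) + 3))) ≤ Z * (p * r)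

/-- CLE: the triples with a good modulus. -/
def T_CLE : Prop := ∀ (X Z : ℝ) (Ω V : ℕ), 2 ≤ X → 0 ≤ Z →
  {x | x ∈ Fw X Ω V ∧ PE X Z x}.Finite ∧
  ({x | x ∈ Fw X Ω V ∧ PE X Z x}.ncard : ℝ) ≤ Z * Lo 11 X Ω V

/-- CLA: the triples with a small entry. -/
def T_CLA : Prop := ∀ (X : ℝ) (Ω V : ℕ), 2 ≤ X →
  {x | x ∈ Fw X Ω V ∧ PA X x}.Finite ∧
  ({x | x ∈ Fw X Ω V ∧ PA X x}.ncard : ℝ) ≤ X ^ (1 / 2 : ℝ) * Lo 11 X Ω V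

/-- HCU: a prime not dividing a given number. -/
def T_HCU : Prop := ∀ ε : ℝ, 0 < ε → ∃ X₀ : ℝ, 2 ≤ X₀ ∧ ∀ (X L : ℝ) (T : ℕ), X₀ ≤ X →
  1 ≤ L → L ≤ X ^ 3 → 1 ≤ T → Real.log T ≤ 10 * X ^ ε →
  ∃ ℓ : ℕ, ℓ.Prime ∧ ¬ ℓ ∣ T ∧ L < ℓ ∧ (ℓ : ℝ) ≤ L * X ^ (3 * ε)

/-- HAU: points on `a x ^ e + b y ^ f = E`, uniformly in the exponents. -/
def T_HAU : Prop := ∀ (D : ℕ) (ε : ℝ), 1 ≤ D → 0 < ε → ∃ C : ℝ, 0 < C ∧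
  ∀ (X : ℝ) (e f U V : ℕ) (a b E : ℤ), 2 ≤ X → D < e → D < f → (e : ℝ) ≤ X ^ ε →
  (f : ℝ) ≤ X ^ ε → a ≠ 0 → b ≠ 0 → E ≠ 0 → Real.log (a.natAbs : ℝ) ≤ X ^ ε →
  Real.log (b.natAbs : ℝ) ≤ X ^ ε → Real.log (E.natAbs : ℝ) ≤ X ^ ε → 1 ≤ U → 1 ≤ V →
  (U : ℝ) ≤ X → (V : ℝ) ≤ X →
  (((Finset.Icc 1 U ×ˢ Finset.Icc 1 V).filter
    (fun t => a * (t.1 : ℤ) ^ e + b * (t.2 : ℤ) ^ f = E)).card : ℝ) ≤
    C * X ^ (10 * ε) * ((U : ℝ) * V) ^ (4 / (3 * ((D : ℝ) + 3)))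

/-- CLJ: the triples with two primes with large exponents. -/
def T_CLJ : Prop := ∀ (D : ℕ) (β ε : ℝ), 1 ≤ D → 0 ≤ β → β < 1 / 2 → 0 < ε → ∃ C : ℝ, 0 < C ∧
  ∀ (X Z : ℝ) (Ω V : ℕ), 2 ≤ X → 0 ≤ Z → (Ω : ℝ) ≤ Real.log X ^ β →
  (V : ℝ) ≤ Real.exp (2 * Real.log X ^ (1 / 2 : ℝ)) →
  {x | x ∈ Fw X Ω V ∧ PJ D Z x}.Finite ∧
  ({x | x ∈ Fw X Ω V ∧ PJ D Z x}.ncard : ℝ) ≤ C * Z * X ^ ε

/-- SLE: every triple of large height is in one of the classes. -/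
def T_SLE : Prop := ∀ δ : ℝ, 0 < δ → ∃ (D : ℕ) (A₀ : ℝ), 1 ≤ D ∧ 1 ≤ A₀ ∧
  ∀ (X : ℝ) (x : Fin 3 → ℤ), 2 ≤ X → Adm x → (pd (pr x).primeFactors : ℝ) ≤ X →
  A₀ * Real.log X ≤ Real.log (ht x) →
  PA X x ∨ PE X (X ^ (5 / 9 + δ)) x ∨ PJ D (X ^ (5 / 9 + δ)) x

/-- RG2: the triples of moderate height. -/
def T_RG2 : Prop := ∀ β ε : ℝ, 0 ≤ β → β < 1 / 2 → 0 < ε → ∃ A₀ C : ℝ, 1 ≤ A₀ ∧ 0 < C ∧
  ∀ X : ℝ, 2 ≤ X →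
  {x | Adm x ∧ (pd (pr x).primeFactors : ℝ) ≤ X ∧
    ((pr x).primeFactors.card : ℝ) ≤ Real.log X ^ β ∧ A₀ * Real.log X ≤ Real.log (ht x) ∧
    Real.log (ht x) ≤ Real.exp (Real.log X ^ (1 / 2 : ℝ))}.Finite ∧
  ({x | Adm x ∧ (pd (pr x).primeFactors : ℝ) ≤ X ∧
    ((pr x).primeFactors.card : ℝ) ≤ Real.log X ^ β ∧ A₀ * Real.log X ≤ Real.log (ht x) ∧
    Real.log (ht x) ≤ Real.exp (Real.log X ^ (1 / 2 : ℝ))}.ncard : ℝ) ≤ C * X ^ (5 / 9 + ε)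

/-- RG1: the triples of small height with radical smaller than the height. -/
def T_RG1 : Prop := ∀ A ε : ℝ, 1 ≤ A → 0 < ε → ∃ C : ℝ, 0 < C ∧ ∀ X : ℝ, 1 ≤ X →
  {x | Adm x ∧ (pd (pr x).primeFactors : ℝ) ≤ X ∧ pd (pr x).primeFactors < ht x ∧
    Real.log (ht x) ≤ A * Real.log X}.Finite ∧
  ({x | Adm x ∧ (pd (pr x).primeFactors : ℝ) ≤ X ∧ pd (pr x).primeFactors < ht x ∧
    Real.log (ht x) ≤ A * Real.log X}.ncard : ℝ) ≤ C * X ^ (4 / 7 + ε)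

/-- AAB: abc for almost all triples with few prime factors. -/
def T_AAB : Prop := ∀ β ε : ℝ, 0 ≤ β → β < 1 / 2 → 0 < ε → ∃ C : ℝ, 0 < C ∧ ∀ X : ℝ, 1 ≤ X →
  {x | Adm x ∧ (pd (pr x).primeFactors : ℝ) ≤ X ∧
    ((pr x).primeFactors.card : ℝ) ≤ Real.log X ^ β ∧ pd (pr x).primeFactors < ht x}.Finite ∧
  ({x | Adm x ∧ (pd (pr x).primeFactors : ℝ) ≤ X ∧
    ((pr x).primeFactors.card : ℝ) ≤ Real.log X ^ β ∧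
    pd (pr x).primeFactors < ht x}.ncard : ℝ) ≤ C * X ^ (4 / 7 + ε)

/-- LWB: the lower bound for the number of all triples with few prime factors. -/
def T_LWB : Prop := ∀ β : ℝ, 0 < β → ∃ c : ℝ, 0 < c ∧ ∀ X : ℝ, 3 ≤ X →
  c * X ^ (2 / 3 : ℝ) ≤ ({x | Adm x ∧ (pd (pr x).primeFactors : ℝ) ≤ X ∧
    ((pr x).primeFactors.card : ℝ) ≤ Real.log X ^ β ∧ (ht x : ℝ) ≤ X}.ncard : ℝ)

end Pool.Agent.H38.AB
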