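import Pool.Agent.H38.RD.SMH
import Pool.Agent.H38.AB.Targets

/-!
# DJH: the data of the machine for disjoint dependent sets
-/

set_option autoImplicit false

namespace Pool.Agent.H38.AB

open Pool.Agent.H82.RD Pool.Agent.H38.RD

theorem fact_prod_pow {ι : Type} [Fintype ι] [DecidableEq ι] (l k : ι → ℕ)
    (hl : Function.Injective l) (hp : ∀ i, (l i).Prime) (i : ι) :
    (∏ j, l j ^ k j).factorization (l i) = k i := by
  rw [Nat.factorization_prod fun j _ => pow_ne_zero _ (hp j).ne_zero, Finsupp.finset_sum_apply,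
    Finset.sum_eq_single i]
  · rw [(hp i).factorization_pow, Finsupp.single_eq_same]
  · intro j _ hji
    rw [(hp j).factorization_pow, Finsupp.single_eq_of_ne]
    exact fun h => hji (hl h).symm
  · intro h
    exact absurd (Finset.mem_univ i) h

theorem pf_DJH (hLDL : T_LDL) (hLPR : T_LPR) (hLRL : T_LRL) : T_DJH := by
  intro q hq e T c Bd m S Q R hT hBd hS hR hdis hQ
  classical
  obtain ⟨ζ0, hζ0⟩ := exists_log hLDL q e hq.1
  obtain ⟨θ, hθ⟩ := exists_theta q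
  have hD : ∀ i, ∃ α γ : ℕ → ℕ, (∀ p ∈ S ∪ R i, α p ≤ Bd ∧ γ p ≤ Bd) ∧
      (∀ p ∈ R i, α p ≠ γ p) ∧
      (∏ p ∈ S ∪ R i, p ^ γ p) ^ 2 ≡ (∏ p ∈ S ∪ R i, p ^ α p) ^ 2 [MOD q ^ e] :=
    fun i => (hR i).2.2.2
  choose α γ hαγB hαγ hcong using hD
  have hpv : ∀ i, ∃ p, p ∈ R i := fun i => (hR i).1
  choose pv hpv using hpv
  have hRQ : ∀ i, R i ⊆ Q := by
    intro i
    rw [hQ]
    exact Finset.subset_biUnion_of_mem R (Finset.mem_univ i)
  have hQR : ∀ p ∈ Q, ∃ i, p ∈ R i := by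
    intro p hp
    rw [hQ, Finset.mem_biUnion] at hp
    obtain ⟨i, -, hi⟩ := hp
    exact ⟨i, hi⟩
  have hQp : ∀ p ∈ Q, p.Prime ∧ p ≠ q := by
    intro p hp
    obtain ⟨i, hi⟩ := hQR p hp
    exact (hR i).2.2.1 p hi
  have hSQ : Disjoint S Q := by
    rw [Finset.disjoint_right]
    intro p hp hpS
    obtain ⟨i, hi⟩ := hQR p hp
    exact Finset.disjoint_left.1 (hR i).2.1 hpS hi
  have hpvinj : Function.Injective pv := by
    intro i j hij
    by_contra hne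
    exact Finset.disjoint_left.1 (hdis i j hne) (hpv i) (hij ▸ hpv j)
  -- the exponents of the relations
  obtain ⟨V, hV⟩ : ∃ V : Fin m → ℕ → ℤ, V = fun i p =>
      if p ∈ S ∪ R i then (γ i p : ℤ) - (α i p : ℤ) else 0 := ⟨_, rfl⟩
  have hVB : ∀ i p, |V i p| ≤ (Bd : ℤ) := by
    intro i p
    rw [hV]
    simp only []
    split_ifs with h
    · have := hαγB i p h
      rw [abs_le]
      constructor <;> omega
    · rw [abs_zero]
      positivity
  have hVpv : ∀ i, V i (pv i) ≠ 0 := by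
    intro i
    rw [hV]
    simp only []
    rw [if_pos (Finset.mem_union_right _ (hpv i))]
    have := hαγ i (pv i) (hpv i)
    omega
  have hVpv' : ∀ i j, i ≠ j → V i (pv j) = 0 := by
    intro i j hij
    rw [hV]
    simp only []
    rw [if_neg]
    rw [Finset.mem_union]
    rintro (h | h)
    · exact Finset.disjoint_left.1 (hR j).2.1 h (hpv j)
    · exact Finset.disjoint_left.1 (hdis i j hij) h (hpv j)
  obtain ⟨n, hn⟩ : ∃ n : Fin m → ℕ, n = fun i => (V i (pv i)).natAbs := ⟨_, rfl⟩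
  have hn1 : ∀ i, 1 ≤ n i := fun i => by
    rw [hn]
    exact Int.natAbs_pos.2 (hVpv i)
  have hnB : ∀ i, n i ≤ Bd := fun i => by
    have := hVB i (pv i)
    rw [Int.abs_eq_natAbs] at this
    rw [hn]
    simp only []
    omega
  have hsg : ∀ i, ∃ s : ℤ, s * s = 1 ∧ |s| = 1 ∧ (n i : ℤ) = s * V i (pv i) := by
    intro i
    rw [hn]
    rcases Int.natAbs_eq (V i (pv i)) with h | h
    · exact ⟨1, by norm_num, by norm_num, by rw [one_mul]; exact h.symm⟩
    · exact ⟨-1, by norm_num, by norm_num, by simp only []; omega⟩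
  choose sg hsg1 hsg2 hsg3 using hsg
  obtain ⟨κ0, hκ0⟩ : ∃ κ0 : ℕ, κ0 = Finset.univ.sup (fun i => padicValNat q (n i)) := ⟨_, rfl⟩
  have hκn : ∀ i, padicValNat q (n i) ≤ κ0 := fun i => by
    rw [hκ0]
    exact Finset.le_sup (f := fun i => padicValNat q (n i)) (Finset.mem_univ i)
  have hqκ : q ^ κ0 ≤ Bd := by
    rcases isEmpty_or_nonempty (Fin m) with hm | hm
    · rw [hκ0, Finset.univ_eq_empty, Finset.sup_empty]
      simpa using hBd
    · obtain ⟨i, -, hi⟩ := Finset.exists_mem_eq_sup Finset.univ Finset.univ_nonempty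
        (fun i => padicValNat q (n i))
      have h2 : q ^ padicValNat q (n i) ∣ n i := pow_padicValNat_dvd
      have h3 := Nat.le_of_dvd (hn1 i) h2
      rw [hκ0, hi]
      exact h3.trans (hnB i)
  have hu : ∀ i, ∃ u : ℤ_[q], (n i : ℤ_[q]) * u = (q : ℤ_[q]) ^ κ0 := fun i =>
    exists_mul_eq_pow q (n i) κ0 (hn1 i) (hκn i)
  choose u hu using hu
  have hnV : ∀ i, (n i : ℤ_[q]) = (sg i : ℤ_[q]) * (V i (pv i) : ℤ_[q]) := by
    intro i
    have h := congrArg (fun t : ℤ => (t : ℤ_[q])) (hsg3 i)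
    simpa using h
  have hsg1' : ∀ i, (sg i : ℤ_[q]) * (sg i : ℤ_[q]) = 1 := fun i => by exact_mod_cast hsg1 i
  -- the relations in `ℤ_[q]`
  have hrel : ∀ i, (q : ℤ_[q]) ^ (e - 3) ∣ ∑ p ∈ S ∪ Q, (V i p : ℤ_[q]) * (ζ0 p : ℤ_[q]) := by
    intro i
    have h1 := hLRL q e ζ0 ℕ (S ∪ R i) id (α i) (γ i) hq.1 hζ0
      (by
        intro p hp
        rcases Finset.mem_union.1 hp with h | h
        · exact (Nat.coprime_primes (hS p h).1 hq.1).2 (hS p h).2
        · exact (Nat.coprime_primes ((hR i).2.2.1 p h).1 hq.1).2 ((hR i).2.2.1 p h).2)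
      (hcong i)
    have h2 := cast_modEq q h1
    push_cast at h2
    simp only [id] at h2
    rw [← Finset.sum_sub_distrib] at h2
    have h3 : ∑ p ∈ S ∪ Q, (V i p : ℤ_[q]) * (ζ0 p : ℤ_[q]) =
        ∑ p ∈ S ∪ R i, ((γ i p : ℤ_[q]) * (ζ0 p : ℤ_[q]) - (α i p : ℤ_[q]) * (ζ0 p : ℤ_[q])) := by
      rw [← Finset.sum_subset (Finset.union_subset_union_right (hRQ i))]
      · refine Finset.sum_congr rfl fun p hp => ?_
        rw [hV]
        simp only []
        rw [if_pos hp]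
        push_cast
        ring
      · intro p _ hp
        rw [hV]
        simp only []
        rw [if_neg hp]
        simp
    rw [h3]
    exact h2
  -- the coordinates
  obtain ⟨P, hP⟩ : ∃ P : Finset ℕ, P = Finset.univ.image pv := ⟨_, rfl⟩
  have hPQ : P ⊆ Q := by
    rw [hP]
    intro p hp
    obtain ⟨i, -, rfl⟩ := Finset.mem_image.1 hp
    exact hRQ i (hpv i)
  have hPcard : P.card = m := by
    rw [hP, Finset.card_image_of_injective _ hpvinj, Finset.card_univ, Fintype.card_fin]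
  obtain ⟨Co, hCo⟩ : ∃ Co : Finset ℕ, Co = S ∪ (Q \ P) := ⟨_, rfl⟩
  have hCoP : Disjoint Co P := by
    rw [hCo, Finset.disjoint_union_left]
    exact ⟨hSQ.mono_right hPQ, Finset.sdiff_disjoint⟩
  have hCoU : Co ∪ P = S ∪ Q := by
    rw [hCo, Finset.union_assoc, Finset.sdiff_union_of_subset hPQ]
  have hcard : Co.card + m = S.card + Q.card := by
    rw [← hPcard, ← Finset.card_union_of_disjoint hCoP, hCoU,
      Finset.card_union_of_disjoint hSQ]
  obtain ⟨L, hL⟩ : ∃ L : Fin Co.card → ℕ, L = fun j => (Co.equivFin.symm j : ℕ) := ⟨_, rfl⟩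
  have hLsum : ∀ f : ℕ → ℤ_[q], ∑ p ∈ Co, f p = ∑ j, f (L j) := by
    intro f
    rw [← Finset.sum_coe_sort Co f, ← Equiv.sum_comp Co.equivFin.symm, hL]
  have hUsum : ∀ f : ℕ → ℤ_[q], ∑ p ∈ S ∪ Q, f p = ∑ p ∈ Co, f p + ∑ i, f (pv i) := by
    intro f
    rw [← hCoU, Finset.sum_union hCoP, hP, Finset.sum_image fun i _ j _ h => hpvinj h]
  -- extension of exponent vectors
  obtain ⟨kk, hkk⟩ : ∃ kk : (Q → ℕ) → ℕ → ℕ, kk = fun k p =>
      if h : p ∈ Q then k ⟨p, h⟩ else 0 := ⟨_, rfl⟩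
  have hkkQ : ∀ (k : Q → ℕ) (p : Q), kk k p = k p := by
    intro k p
    rw [hkk]
    simp only []
    rw [dif_pos p.2]
  have hkkS : ∀ (k : Q → ℕ) (p : ℕ), p ∈ S → kk k p = 0 := by
    intro k p hp
    rw [hkk]
    simp only []
    rw [dif_neg fun h => Finset.disjoint_left.1 hSQ hp h]
  have hKaq : ∀ k ∈ Kaq q T c Q, (∀ p, k p ≤ T) ∧ (∏ p : Q, (p : ℕ) ^ k p) % qh q = c := by
    intro k hk
    rw [Kaq, Finset.mem_filter, Fintype.mem_piFinset] at hk
    refine ⟨fun i => ?_, hk.2⟩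
    have := hk.1 i
    rw [Finset.mem_range] at this
    omega
  have hkkT : ∀ k ∈ Kaq q T c Q, ∀ p, kk k p ≤ T := by
    intro k hk p
    rw [hkk]
    simp only []
    split_ifs with h
    · exact (hKaq k hk).1 _
    · exact Nat.zero_le _
  obtain ⟨w, hw⟩ : ∃ w : (Q → ℕ) → ℕ → ℤ_[q], w = fun k p =>
      (q : ℤ_[q]) ^ κ0 * (kk k p : ℤ_[q]) -
        ∑ i, (V i p : ℤ_[q]) * ((sg i : ℤ_[q]) * u i) * (kk k (pv i) : ℤ_[q]) := ⟨_, rfl⟩
  obtain ⟨nu, hnu⟩ : ∃ nu : (Q → ℕ) → ℕ → ℤ, nu = fun k p =>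
      (∏ i, (n i : ℤ)) * (q : ℤ) ^ κ0 * (kk k p : ℤ) -
        ∑ i, V i p * (sg i * ((q : ℤ) ^ κ0 * ∏ j ∈ Finset.univ.erase i, (n j : ℤ))) *
          (kk k (pv i) : ℤ) := ⟨_, rfl⟩
  refine ⟨Co.card, κ0 + 1, fun k j => w k (L j), fun _ => ∏ i, n i, fun k j => nu k (L j),
    fun j => θ * (ζ0 (L j) : ℤ_[q]), hcard, ?_, ?_, ?_, ?_, ?_, ?_, ?_, ?_, ?_⟩
  · rw [pow_succ, mul_comm]
    exact Nat.mul_le_mul_left _ hqκ
  · intro k hk
    obtain ⟨hk1, -⟩ := hKaq k hk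
    constructor
    · exact Nat.succ_le_iff.2 (Finset.prod_pos fun p _ => pow_pos (hQp p p.2).1.pos _)
    · show ∏ p : Q, (p : ℕ) ^ k p ≤ (∏ p ∈ Q, p) ^ T
      rw [← Finset.prod_coe_sort Q (fun p => p), ← Finset.prod_pow]
      exact Finset.prod_le_prod' fun p _ => Nat.pow_le_pow_right (hQp p p.2).1.pos (hk1 p)
  · intro k _ k' _ h
    funext p
    have h0 := congrArg (fun t : ℕ => t.factorization (p : ℕ)) h
    simp only [] at h0
    rw [fact_prod_pow (fun p : Q => (p : ℕ)) k Subtype.val_injective (fun p => (hQp p p.2).1) p,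
      fact_prod_pow (fun p : Q => (p : ℕ)) k' Subtype.val_injective
        (fun p => (hQp p p.2).1) p] at h0
    exact h0
  · intro k hk
    have h1 : ∏ i, n i ≤ Bd ^ m := by
      calc ∏ i, n i ≤ Bd ^ (Finset.univ : Finset (Fin m)).card :=
            Finset.prod_le_pow_card _ _ _ fun i _ => hnB i
        _ = Bd ^ m := by rw [Finset.card_univ, Fintype.card_fin]
    refine ⟨Nat.succ_le_iff.2 (Finset.prod_pos fun i _ => hn1 i), h1.trans ?_⟩
    calc Bd ^ m = 1 * 1 * Bd ^ m := by ring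
      _ ≤ (m + 2) * T * Bd ^ (m + 1) := by
          refine Nat.mul_le_mul (Nat.mul_le_mul (by omega) hT)
            (Nat.pow_le_pow_right hBd (by omega))
  · intro k hk j
    have hT' := hkkT k hk
    have hprod : ∏ i, n i ≤ Bd ^ m := by
      calc ∏ i, n i ≤ Bd ^ (Finset.univ : Finset (Fin m)).card :=
            Finset.prod_le_pow_card _ _ _ fun i _ => hnB i
        _ = Bd ^ m := by rw [Finset.card_univ, Fintype.card_fin]
    have e1 : |(∏ i, (n i : ℤ)) * (q : ℤ) ^ κ0 * (kk k (L j) : ℤ)| ≤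
        (T : ℤ) * (Bd : ℤ) ^ (m + 1) := by
      have e3 : (∏ i, (n i : ℤ)) * (q : ℤ) ^ κ0 * (kk k (L j) : ℤ) =
          (((∏ i, n i) * q ^ κ0 * kk k (L j) : ℕ) : ℤ) := by push_cast; rfl
      rw [e3, Nat.abs_cast]
      have : (∏ i, n i) * q ^ κ0 * kk k (L j) ≤ Bd ^ m * Bd * T :=
        Nat.mul_le_mul (Nat.mul_le_mul hprod hqκ) (hT' _)
      calc (((∏ i, n i) * q ^ κ0 * kk k (L j) : ℕ) : ℤ) ≤ ((Bd ^ m * Bd * T : ℕ) : ℤ) := by
            exact_mod_cast this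
        _ = (T : ℤ) * (Bd : ℤ) ^ (m + 1) := by push_cast; ring
    have e2 : ∀ i ∈ (Finset.univ : Finset (Fin m)),
        |V i (L j) * (sg i * ((q : ℤ) ^ κ0 * ∏ j ∈ Finset.univ.erase i, (n j : ℤ))) *
          (kk k (pv i) : ℤ)| ≤ (T : ℤ) * (Bd : ℤ) ^ (m + 1) := by
      intro i hi
      have e4 : (q : ℤ) ^ κ0 * ∏ j ∈ Finset.univ.erase i, (n j : ℤ) =
          ((q ^ κ0 * ∏ j ∈ Finset.univ.erase i, n j : ℕ) : ℤ) := by push_cast; rfl
      have e5 : ∏ j ∈ Finset.univ.erase i, n j ≤ Bd ^ (m - 1) := by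
        calc ∏ j ∈ Finset.univ.erase i, n j ≤ Bd ^ (Finset.univ.erase i).card :=
              Finset.prod_le_pow_card _ _ _ fun j _ => hnB j
          _ = Bd ^ (m - 1) := by
              rw [Finset.card_erase_of_mem hi, Finset.card_univ, Fintype.card_fin]
      have hm1 : 1 ≤ m := by
        have := i.2
        omega
      have e6 : q ^ κ0 * ∏ j ∈ Finset.univ.erase i, n j ≤ Bd ^ m := by
        calc q ^ κ0 * ∏ j ∈ Finset.univ.erase i, n j ≤ Bd * Bd ^ (m - 1) :=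
              Nat.mul_le_mul hqκ e5
          _ = Bd ^ m := by
              rw [← pow_succ']
              congr 1
              omega
      rw [abs_mul, abs_mul, abs_mul, hsg2, one_mul, e4, Nat.abs_cast, Nat.abs_cast]
      calc |V i (L j)| * ((q ^ κ0 * ∏ j ∈ Finset.univ.erase i, n j : ℕ) : ℤ) *
            (kk k (pv i) : ℤ) ≤ (Bd : ℤ) * ((Bd ^ m : ℕ) : ℤ) * (T : ℤ) := by
            apply mul_le_mul _ (by exact_mod_cast hT' _) (by positivity) (by positivity)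
            exact mul_le_mul (hVB _ _) (by exact_mod_cast e6) (by positivity) (by positivity)
        _ = (T : ℤ) * (Bd : ℤ) ^ (m + 1) := by push_cast; ring
    show |nu k (L j)| ≤ _
    rw [hnu]
    calc |(∏ i, (n i : ℤ)) * (q : ℤ) ^ κ0 * (kk k (L j) : ℤ) -
          ∑ i, V i (L j) * (sg i * ((q : ℤ) ^ κ0 * ∏ j ∈ Finset.univ.erase i, (n j : ℤ))) *
            (kk k (pv i) : ℤ)|
        ≤ |(∏ i, (n i : ℤ)) * (q : ℤ) ^ κ0 * (kk k (L j) : ℤ)| +
          |∑ i, V i (L j) * (sg i * ((q : ℤ) ^ κ0 * ∏ j ∈ Finset.univ.erase i, (n j : ℤ))) *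
            (kk k (pv i) : ℤ)| := abs_sub _ _
      _ ≤ (T : ℤ) * (Bd : ℤ) ^ (m + 1) + m * ((T : ℤ) * (Bd : ℤ) ^ (m + 1)) := by
          refine add_le_add e1 ((Finset.abs_sum_le_sum_abs _ _).trans
            ((Finset.sum_le_card_nsmul _ _ _ e2).trans (le_of_eq ?_)))
          rw [Finset.card_univ, Fintype.card_fin, nsmul_eq_mul]
      _ ≤ (((m + 2) * T * Bd ^ (m + 1) : ℕ) : ℤ) := by
          push_cast
          have : (0 : ℤ) ≤ (T : ℤ) * (Bd : ℤ) ^ (m + 1) := by positivity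
          nlinarith
  · intro k _ j
    show ((∏ i, n i : ℕ) : ℤ_[q]) * w k (L j) = ((nu k (L j) : ℤ) : ℤ_[q])
    rw [hw, hnu]
    push_cast
    rw [mul_sub, Finset.mul_sum]
    congr 1
    · ring
    · refine Finset.sum_congr rfl fun i _ => ?_
      rw [← Finset.mul_prod_erase Finset.univ (fun j => (n j : ℤ_[q])) (Finset.mem_univ i),
        ← hu i]
      ring
  · exact (Nat.le_add_right 1 _)
  · rw [Nat.add_sub_cancel_left]
    exact dvd_qh q
  · intro k hk k' hk'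
    obtain ⟨-, hk2⟩ := hKaq k hk
    obtain ⟨-, hk2'⟩ := hKaq k' hk'
    have hpi : ∀ k : Q → ℕ, ∏ p ∈ Q, p ^ kk k p = ∏ p : Q, (p : ℕ) ^ k p := by
      intro k
      rw [← Finset.prod_coe_sort Q (fun p => p ^ kk k p)]
      exact Finset.prod_congr rfl fun p _ => by rw [hkkQ]
    obtain ⟨z, hz1, hz2⟩ := hLPR q e ζ0 ℕ Q id (kk k) (kk k') hq.1 hζ0
      (fun p hp => (Nat.coprime_primes (hQp p hp).1 hq.1).2 (hQp p hp).2)
      (by
        simp only [id]
        rw [hpi, hpi]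
        exact hk2.trans hk2'.symm)
    simp only [id] at hz1 hz2
    rw [hpi, hpi] at hz1
    -- the value of the linear form
    have hlin : ∀ k : Q → ℕ, (q : ℤ_[q]) ^ (e - 3) ∣
        (q : ℤ_[q]) ^ κ0 * ∑ p ∈ Q, (kk k p : ℤ_[q]) * (ζ0 p : ℤ_[q]) -
          ∑ j, w k (L j) * (ζ0 (L j) : ℤ_[q]) := by
      intro k
      have hQU : ∑ p ∈ Q, (kk k p : ℤ_[q]) * (ζ0 p : ℤ_[q]) =
          ∑ p ∈ S ∪ Q, (kk k p : ℤ_[q]) * (ζ0 p : ℤ_[q]) := by
        refine Finset.sum_subset Finset.subset_union_right ?_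
        intro p hp hpQ
        have hpS : p ∈ S := by
          rcases Finset.mem_union.1 hp with h | h
          · exact h
          · exact absurd h hpQ
        rw [hkkS k p hpS]
        simp
      have hfin : (q : ℤ_[q]) ^ κ0 * ∑ p ∈ Q, (kk k p : ℤ_[q]) * (ζ0 p : ℤ_[q]) -
          ∑ j, w k (L j) * (ζ0 (L j) : ℤ_[q]) =
          ∑ i, (sg i : ℤ_[q]) * u i * (kk k (pv i) : ℤ_[q]) *
            ∑ p ∈ S ∪ Q, (V i p : ℤ_[q]) * (ζ0 p : ℤ_[q]) := by
        have h1 : ∑ j, w k (L j) * (ζ0 (L j) : ℤ_[q]) =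
            (q : ℤ_[q]) ^ κ0 * ∑ p ∈ Co, (kk k p : ℤ_[q]) * (ζ0 p : ℤ_[q]) -
            ∑ i, (sg i : ℤ_[q]) * u i * (kk k (pv i) : ℤ_[q]) *
              ∑ p ∈ Co, (V i p : ℤ_[q]) * (ζ0 p : ℤ_[q]) := by
          rw [← hLsum fun p => w k p * (ζ0 p : ℤ_[q]), hw]
          simp only [sub_mul, Finset.sum_sub_distrib, Finset.sum_mul, Finset.mul_sum]
          congr 1
          · exact Finset.sum_congr rfl fun p _ => by ring
          · rw [Finset.sum_comm]
            refine Finset.sum_congr rfl fun i _ => Finset.sum_congr rfl fun p _ => ?_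
            ring
        have h2 : ∀ i, ∑ p ∈ S ∪ Q, (V i p : ℤ_[q]) * (ζ0 p : ℤ_[q]) =
            ∑ p ∈ Co, (V i p : ℤ_[q]) * (ζ0 p : ℤ_[q]) +
              (V i (pv i) : ℤ_[q]) * (ζ0 (pv i) : ℤ_[q]) := by
          intro i
          rw [hUsum]
          congr 1
          rw [Finset.sum_eq_single i]
          · intro j _ hji
            rw [hVpv' i j (Ne.symm hji)]
            simp
          · intro h
            exact absurd (Finset.mem_univ i) h
        have h3 : ∀ i, (sg i : ℤ_[q]) * u i * (V i (pv i) : ℤ_[q]) = (q : ℤ_[q]) ^ κ0 := by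
          intro i
          rw [← hu i, hnV i]
          ring
        rw [hQU, hUsum, h1]
        have h4 : ∑ i, (sg i : ℤ_[q]) * u i * (kk k (pv i) : ℤ_[q]) *
            ∑ p ∈ S ∪ Q, (V i p : ℤ_[q]) * (ζ0 p : ℤ_[q]) =
            ∑ i, (sg i : ℤ_[q]) * u i * (kk k (pv i) : ℤ_[q]) *
              ∑ p ∈ Co, (V i p : ℤ_[q]) * (ζ0 p : ℤ_[q]) +
            (q : ℤ_[q]) ^ κ0 * ∑ i, (kk k (pv i) : ℤ_[q]) * (ζ0 (pv i) : ℤ_[q]) := by
          rw [Finset.mul_sum, ← Finset.sum_add_distrib]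
          refine Finset.sum_congr rfl fun i _ => ?_
          rw [h2 i, ← h3 i]
          ring
        rw [h4]
        ring
      rw [hfin]
      exact Finset.dvd_sum fun i _ => Dvd.dvd.mul_left (hrel i) _
    refine ⟨z, ?_, ?_⟩
    · have h4 := cast_modEq q hz1
      refine (pow_dvd_pow (q : ℤ_[q]) (Nat.sub_le e 3)).trans ?_
      push_cast
      push_cast at h4
      exact h4
    · have h4 := cast_modEq q hz2
      push_cast at h4
      have h4' : (q : ℤ_[q]) ^ (e - 3) ∣ ∑ p ∈ Q, (kk k p : ℤ_[q]) * (ζ0 p : ℤ_[q]) -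
          (∑ p ∈ Q, (kk k' p : ℤ_[q]) * (ζ0 p : ℤ_[q]) + (ph q : ℤ_[q]) * (z : ℤ_[q])) :=
        (pow_dvd_pow _ (by omega)).trans h4
      have hs : ∑ j, θ * (ζ0 (L j) : ℤ_[q]) * (w k (L j) - w k' (L j)) =
          θ * ∑ j, w k (L j) * (ζ0 (L j) : ℤ_[q]) -
          θ * ∑ j, w k' (L j) * (ζ0 (L j) : ℤ_[q]) := by
        rw [Finset.mul_sum, Finset.mul_sum, ← Finset.sum_sub_distrib]
        refine Finset.sum_congr rfl fun j _ => ?_
        ring
      have key : (q : ℤ_[q]) ^ (κ0 + 1) * (z : ℤ_[q]) -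
          ∑ j, θ * (ζ0 (L j) : ℤ_[q]) * (w k (L j) - w k' (L j)) =
          θ * ((q : ℤ_[q]) ^ κ0 * ∑ p ∈ Q, (kk k p : ℤ_[q]) * (ζ0 p : ℤ_[q]) -
            ∑ j, w k (L j) * (ζ0 (L j) : ℤ_[q])) -
          θ * ((q : ℤ_[q]) ^ κ0 * ∑ p ∈ Q, (kk k' p : ℤ_[q]) * (ζ0 p : ℤ_[q]) -
            ∑ j, w k' (L j) * (ζ0 (L j) : ℤ_[q])) -
          θ * (q : ℤ_[q]) ^ κ0 * (∑ p ∈ Q, (kk k p : ℤ_[q]) * (ζ0 p : ℤ_[q]) -
            (∑ p ∈ Q, (kk k' p : ℤ_[q]) * (ζ0 p : ℤ_[q]) + (ph q : ℤ_[q]) * (z : ℤ_[q]))) := by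
        have h7 : (q : ℤ_[q]) ^ (κ0 + 1) = (q : ℤ_[q]) ^ κ0 * ((ph q : ℤ_[q]) * θ) := by
          rw [hθ, pow_succ]
        rw [hs, h7]
        ring
      rw [key]
      exact dvd_sub (dvd_sub (Dvd.dvd.mul_left (hlin k) _) (Dvd.dvd.mul_left (hlin k') _))
        (Dvd.dvd.mul_left h4' _)

end Pool.Agent.H38.AB
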