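import Pool.Agent.H82.RD.All
import Pool.Agent.H38.AB.Targets
import Pool.Agent.H38.AB.DJH
import Pool.Agent.H94.AB.DJN
import Pool.Agent.H94.AB.DJ
import Pool.Agent.H11.AB.CNT
import Pool.Agent.H18.AB.CLA
import Pool.Agent.H18.AB.CLE
import Pool.Agent.H19.AB.CLJ
import Pool.Agent.H19.AB.ENA
import Pool.Agent.H19.AB.ENM
import Pool.Agent.H19.AB.GEA
import Pool.Agent.H33.AB.AAB
import Pool.Agent.H33.AB.HCU
import Pool.Agent.H34.AB.EG
import Pool.Agent.H34.AB.NUM3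
import Pool.Agent.H39.AB.SLE
import Pool.Agent.H46.AB.GEM
import Pool.Agent.H49.AB.HAU
import Pool.Agent.H70.AB.MOM
import Pool.Agent.H86.AB.RG1
import Pool.Agent.H86.AB.RG2
import Pool.Agent.H93.AB.NSU
import Pool.Agent.H93.AB.TRM
import Pool.Agent.H96.AB.TOR
import Pool.Agent.H33.AF.HG
import Pool.Agent.H52.AE.HP
import Pool.Agent.H58.AE.HR

/-!
# abc for almost all triples with few prime factors: assembly
-/

set_option autoImplicit false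

namespace Pool.Agent.H38.AB

open Pool.Agent.H38.RB Pool.Agent.H38.PS Pool.Agent.H82.RD

theorem eg : T_EG := Pool.Agent.H34.AB.pf_EG Pool.Agent.H33.AF.pf_HG

theorem enm : T_ENM := Pool.Agent.H19.AB.pf_ENM eg Pool.Agent.H96.AB.pf_TOR Pool.Agent.H70.AB.pf_MOM

theorem gem : T_GEM := Pool.Agent.H46.AB.pf_GEM enm

theorem gea : T_GEA := Pool.Agent.H19.AB.pf_GEA (Pool.Agent.H19.AB.pf_ENA eg)

theorem nsu : T_NSU := Pool.Agent.H93.AB.pf_NSU

theorem cle : T_CLE := Pool.Agent.H18.AB.pf_CLE nsu gem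

theorem cla : T_CLA := Pool.Agent.H18.AB.pf_CLA nsu gea

theorem hau : T_HAU :=
  Pool.Agent.H49.AB.pf_HAU Pool.Agent.H33.AB.pf_HCU
    (Pool.Agent.H58.AE.pf_HR Pool.Agent.H52.AE.pf_HP)

theorem clj : T_CLJ := Pool.Agent.H19.AB.pf_CLJ nsu hau Pool.Agent.H34.AB.pf_NUM3

theorem rg1 : T_RG1 := Pool.Agent.H86.AB.pf_RG1

theorem rg2 : T_RG2 :=
  Pool.Agent.H86.AB.pf_RG2 Pool.Agent.H34.AB.pf_NUM3 cle cla clj Pool.Agent.H39.AB.pf_SLE

theorem dj : T_DJ :=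
  Pool.Agent.H94.AB.pf_DJ (pf_DJH ldl lpr lrl) Pool.Agent.H94.AB.pf_DJN mth

theorem trm : T_TRM := Pool.Agent.H93.AB.pf_TRM (Pool.Agent.H11.AB.pf_CNT dj) thb qr tfi

theorem aab : T_AAB := Pool.Agent.H33.AB.pf_AAB rg1 rg2 trm

end Pool.Agent.H38.AB
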